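import Pool.Agent.Y120.J.Defs
import Pool.Agent.Y119.HY.Ari

/-!
# Sizes and denominators of the power series `FF` and `GG`

The statement `Pool.Agent.Y120.J.T_SD`.
-/

set_option autoImplicit false

open PowerSeries

namespace Pool.Agent.Y809.J

open Pool.Agent.Y120.J Pool.Agent.Y113

theorem sdc_mk (f : ℕ → ℚ) (a : ℕ) (h1 : ∀ m, |f m| ≤ (2 ^ a) ^ (m + 1)) (d : ℕ → ℕ)
    (hd0 : ∀ m, 0 < d m) (hd : ∀ m, (d m : ℝ) ≤ (2 ^ a) ^ (m + 1))
    (hi : ∀ m, ∀ j ≤ m, ∃ c : ℤ, (d m : ℚ) * f j = c) : SDc (mk f) := by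
  refine ⟨a, fun m => ?_, fun m => ⟨d m, hd0 m, hd m, fun j hj => ?_⟩⟩
  · rw [coeff_mk]
    have := h1 m
    exact_mod_cast this
  · rw [coeff_mk]
    exact hi m j hj

theorem fa_nonneg (n : ℕ) : 0 ≤ fa n := Finset.prod_nonneg fun l _ => by positivity

theorem fa_le (n : ℕ) : fa n ≤ 1728 ^ n := by
  unfold fa
  refine (Finset.prod_le_prod (fun l _ => by positivity)
    (g := fun _ => (1728 : ℚ)) fun l _ => ?_).trans ?_
  · rw [div_le_iff₀ (by positivity)]
    have : (0 : ℚ) ≤ l := by positivity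
    nlinarith
  · rw [Finset.prod_const, Finset.card_range]

theorem fu_le (n : ℕ) : |fu n| ≤ 1728 ^ n := by
  unfold fu
  rw [Finset.abs_prod]
  refine (Finset.prod_le_prod (fun l _ => abs_nonneg _)
    (g := fun _ => (1728 : ℚ)) fun l _ => ?_).trans ?_
  · have h0 : (0 : ℚ) ≤ l := by positivity
    rw [abs_div, abs_of_pos (show (0 : ℚ) < (l : ℚ) + 1 by positivity), div_le_iff₀ (by positivity),
      abs_le]
    constructor <;> linarith
  · rw [Finset.prod_const, Finset.card_range]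

theorem fa_eq (n : ℕ) : fa n = 1728 ^ n * ((∏ l ∈ Finset.range n, (((l : ℚ) + 1 / 12) / ((l : ℚ) + 1))) *
    ∏ l ∈ Finset.range n, (((l : ℚ) + 5 / 12) / ((l : ℚ) + 1))) := by
  unfold fa
  rw [← Finset.prod_mul_distrib, ← Finset.card_range n, ← Finset.prod_const, Finset.card_range,
    ← Finset.prod_mul_distrib]
  refine Finset.prod_congr rfl fun l _ => ?_
  field_simp
  ring

theorem fu_eq (n : ℕ) : fu n = 1728 ^ n * (∏ l ∈ Finset.range n, (((l : ℚ) + (-1 / 4)) / ((l : ℚ) + 1))) := by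
  unfold fu
  rw [← Finset.card_range n, ← Finset.prod_const, Finset.card_range, ← Finset.prod_mul_distrib]
  refine Finset.prod_congr rfl fun l _ => ?_
  field_simp
  ring

theorem fa_int (n : ℕ) : ∃ a : ℤ, (144 : ℚ) ^ (2 * n) * fa n = a := by
  obtain ⟨a, ha⟩ := Pool.Agent.Y119.HY.poch_int (1 / 12) n
  obtain ⟨b, hb⟩ := Pool.Agent.Y119.HY.poch_int (5 / 12) n
  have e1 : ((1 / 12 : ℚ).den : ℚ) = 12 := by norm_num
  have e2 : ((5 / 12 : ℚ).den : ℚ) = 12 := by norm_num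
  rw [e1] at ha
  rw [e2] at hb
  refine ⟨1728 ^ n * (a * b), ?_⟩
  push_cast
  rw [← ha, ← hb, fa_eq, pow_mul']
  norm_num
  ring

theorem fu_int (n : ℕ) : ∃ a : ℤ, (16 : ℚ) ^ n * fu n = a := by
  obtain ⟨a, ha⟩ := Pool.Agent.Y119.HY.poch_int (-1 / 4) n
  have e1 : ((-1 / 4 : ℚ).den : ℚ) = 4 := by norm_num
  rw [e1] at ha
  refine ⟨1728 ^ n * a, ?_⟩
  push_cast
  rw [← ha, fu_eq]
  norm_num
  ring

theorem fb_int (j n : ℕ) (h : j ≤ n) : ∃ a : ℤ, (Nat.lcmUpto (12 * n) : ℚ) * fb j = a := by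
  have h1 : ∀ l ∈ Finset.range j, ∃ a : ℤ, (Nat.lcmUpto (12 * n) : ℚ) *
      (12 / (12 * (l : ℚ) + 1) + 12 / (12 * (l : ℚ) + 5) - 2 / ((l : ℚ) + 1)) = a := by
    intro l hl
    rw [Finset.mem_range] at hl
    obtain ⟨a, ha⟩ := lcm_div (j := 12 * l + 1) (n := 12 * n) (by omega) (by omega)
    obtain ⟨b, hb⟩ := lcm_div (j := 12 * l + 5) (n := 12 * n) (by omega) (by omega)
    obtain ⟨c, hc⟩ := lcm_div (j := l + 1) (n := 12 * n) (by omega) (by omega)
    refine ⟨12 * a + 12 * b - 2 * c, ?_⟩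
    push_cast at ha hb hc ⊢
    rw [← ha, ← hb, ← hc]
    ring
  choose! a ha using h1
  refine ⟨∑ l ∈ Finset.range j, a l, ?_⟩
  rw [fb, Finset.mul_sum]
  push_cast
  exact Finset.sum_congr rfl fun l hl => ha l hl

theorem fb_le (n : ℕ) : |fb n| ≤ 26 * n := by
  unfold fb
  refine (Finset.abs_sum_le_sum_abs _ _).trans ?_
  refine (Finset.sum_le_card_nsmul _ _ (26 : ℚ) fun l _ => ?_).trans ?_
  · have h0 : (0 : ℚ) ≤ l := by positivity
    have h1 : 12 / (12 * (l : ℚ) + 1) ≤ 12 := div_le_self (by norm_num) (by linarith)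
    have h2 : 12 / (12 * (l : ℚ) + 5) ≤ 12 := div_le_self (by norm_num) (by linarith)
    have h3 : 2 / ((l : ℚ) + 1) ≤ 2 := div_le_self (by norm_num) (by linarith)
    have h4 : 0 ≤ 12 / (12 * (l : ℚ) + 1) := by positivity
    have h5 : 0 ≤ 12 / (12 * (l : ℚ) + 5) := by positivity
    have h6 : 0 ≤ 2 / ((l : ℚ) + 1) := by positivity
    rw [abs_le]
    constructor <;> linarith
  · rw [nsmul_eq_mul, Finset.card_range, mul_comm]

theorem sd_fu : SDc (mk fu) := by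
  refine sdc_mk fu 11 (fun m => (fu_le m).trans ?_) (fun m => 16 ^ m) (fun m => by positivity)
    (fun m => ?_) fun m j hj => ?_
  · calc (1728 : ℚ) ^ m ≤ (2 ^ 11) ^ m := pow_le_pow_left₀ (by norm_num) (by norm_num) _
      _ ≤ _ := pow_le_pow_right₀ (by norm_num) (by omega)
  · push_cast
    calc (16 : ℝ) ^ m ≤ (2 ^ 11) ^ m := pow_le_pow_left₀ (by norm_num) (by norm_num) _
      _ ≤ _ := pow_le_pow_right₀ (by norm_num) (by omega)
  · obtain ⟨a, ha⟩ := fu_int j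
    refine ⟨16 ^ (m - j) * a, ?_⟩
    push_cast
    rw [← ha, ← mul_assoc, ← pow_add, Nat.sub_add_cancel hj]

theorem fa_int' {m j : ℕ} (hj : j ≤ m) : ∃ a : ℤ, (144 : ℚ) ^ (2 * m) * fa j = a := by
  obtain ⟨a, ha⟩ := fa_int j
  refine ⟨144 ^ (2 * (m - j)) * a, ?_⟩
  push_cast
  rw [← ha, ← mul_assoc, ← pow_add]
  congr 2
  omega

theorem sd_fa : SDc (mk fa) := by
  refine sdc_mk fa 16 (fun m => ?_) (fun m => 144 ^ (2 * m)) (fun m => by positivity)
    (fun m => ?_) fun m j hj => ?_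
  · rw [abs_of_nonneg (fa_nonneg m)]
    calc fa m ≤ (1728 : ℚ) ^ m := fa_le m
      _ ≤ (2 ^ 16) ^ m := pow_le_pow_left₀ (by norm_num) (by norm_num) _
      _ ≤ _ := pow_le_pow_right₀ (by norm_num) (by omega)
  · push_cast
    rw [pow_mul]
    calc ((144 : ℝ) ^ 2) ^ m ≤ (2 ^ 16) ^ m := pow_le_pow_left₀ (by norm_num) (by norm_num) _
      _ ≤ _ := pow_le_pow_right₀ (by norm_num) (by omega)
  · push_cast
    exact fa_int' hj

theorem sd_fab : SDc (mk fun n => fa n * fb n) := by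
  refine sdc_mk (fun n => fa n * fb n) 112 (fun m => ?_)
    (fun m => 144 ^ (2 * m) * Nat.lcmUpto (12 * m))
    (fun m => Nat.mul_pos (by positivity) (Nat.lcmUpto_pos _)) (fun m => ?_) fun m j hj => ?_
  · rw [abs_mul, abs_of_nonneg (fa_nonneg m)]
    have h1 : (m : ℚ) ≤ 2 ^ m := by exact_mod_cast (Nat.lt_two_pow_self (n := m)).le
    calc fa m * |fb m| ≤ (1728 : ℚ) ^ m * (26 * 2 ^ m) :=
          mul_le_mul (fa_le m) ((fb_le m).trans (by linarith)) (abs_nonneg _) (by positivity)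
      _ = 26 * (3456 : ℚ) ^ m := by
          rw [show (3456 : ℚ) = 1728 * 2 by norm_num, mul_pow]; ring
      _ ≤ 2 ^ 112 * (2 ^ 112) ^ m := by
          refine mul_le_mul (by norm_num) (pow_le_pow_left₀ (by norm_num) (by norm_num) _)
            (by positivity) (by positivity)
      _ = _ := (pow_succ' _ _).symm
  · push_cast
    calc (144 : ℝ) ^ (2 * m) * (Nat.lcmUpto (12 * m) : ℝ) ≤ (2 ^ 8) ^ (2 * m) * (2 ^ 8) ^ (12 * m) := by
          refine mul_le_mul (pow_le_pow_left₀ (by norm_num) (by norm_num) _) (lcm_bound _)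
            (by positivity) (by positivity)
      _ = (2 ^ 112) ^ m := by
          rw [← pow_mul, ← pow_mul, ← pow_mul, ← pow_add]
          congr 1
          ring
      _ ≤ _ := pow_le_pow_right₀ (by norm_num) (by omega)
  · obtain ⟨a, ha⟩ := fa_int' hj
    obtain ⟨b, hb⟩ := fb_int j m hj
    refine ⟨a * b, ?_⟩
    push_cast
    rw [← ha, ← hb]
    ring

/-- SD -/
theorem t_sd : Pool.Agent.Y120.J.T_SD := ⟨sd_fu.mul sd_fa, sd_fu.mul sd_fab⟩

end Pool.Agent.Y809.J
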